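import Mathlib
import Pool.Agent.Speedup.Glue

set_option autoImplicit false

/-!
# Linear speed-up of the cover time by independent random walks

For every finite irreducible reversible Markov chain, every `k ≥ 1` and with the absolute constant `10 ^ 25`,
`max_u E_u[τ_1] ≤ 10 ^ 25 * k * max_w E_w[τ_k]`, where `τ_k` is the cover time of `k` independent copies of the
chain, all started at `w`; here expectations are integrals over the product of the laws of the trajectories.
-/

namespace Pool.Agent.Results.MP_12e6b8_pr.LinearSpeedup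

open MeasureTheory ProbabilityTheory Finset
open scoped ENNReal

set_option linter.unusedSectionVars false
set_option linter.style.haveILetI false

/-- `μ` is the law, on the space `ℕ → V` of trajectories, of the Markov chain with transition matrix `P`
started at `u`: a probability measure such that, for all `t` and all vertices `p 0, ..., p t`, the probability of
`x 0 = p 0, ..., x t = p t` is `P (p 0) (p 1) * ... * P (p (t-1)) (p t)` if `p 0 = u`, and `0` otherwise. -/
def IsLaw {V : Type} [DecidableEq V] [MeasurableSpace V] (P : Matrix V V ℝ) (u : V) (μ : Measure (ℕ → V)) : Prop :=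
  IsProbabilityMeasure μ ∧ ∀ (t : ℕ) (p : ℕ → V),
    μ {x | ∀ j ≤ t, x j = p j}
      = if p 0 = u then ENNReal.ofReal (∏ j ∈ range t, P (p j) (p (j + 1))) else 0

/-- The cover time of `k` trajectories: the least `t` such that every vertex has been visited by at least one of
them up to time `t` (and `∞` if there is no such `t`). -/
noncomputable def coverTime {V : Type} {k : ℕ} (x : Fin k → ℕ → V) : ℝ≥0∞ :=
  ⨅ (t : ℕ) (_ : ∀ v : V, ∃ i, ∃ j ≤ t, x i j = v), (t : ℝ≥0∞)

/-- Expected cover time of `k` independent trajectories with law `μ`. -/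
noncomputable def expCover {V : Type} [MeasurableSpace V] (k : ℕ) (μ : Measure (ℕ → V)) : ℝ≥0∞ :=
  ∫⁻ x, coverTime x ∂(Measure.pi fun _ : Fin k => μ)

lemma iInf_eq_tsum (p : ℕ → Prop) [DecidablePred p] (hp : ∀ s t, s ≤ t → p s → p t) :
    (⨅ (t : ℕ) (_ : p t), (t : ℝ≥0∞)) = ∑' t : ℕ, if p t then (0 : ℝ≥0∞) else 1 := by
  by_cases h : ∃ t, p t
  · obtain ⟨h1, h2⟩ : p (Nat.find h) ∧ ∀ m < Nat.find h, ¬ p m :=
      ⟨Nat.find_spec h, fun m hm => Nat.find_min h hm⟩
    set n := Nat.find h
    have e1 : (⨅ (t : ℕ) (_ : p t), (t : ℝ≥0∞)) = n := by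
      refine le_antisymm (iInf₂_le n h1) (le_iInf₂ fun t ht => ?_)
      have : n ≤ t := by
        by_contra hlt
        exact h2 t (not_le.1 hlt) ht
      exact_mod_cast this
    have e2 : ∑' t : ℕ, (if p t then (0 : ℝ≥0∞) else 1) = n := by
      rw [tsum_eq_sum (s := range n) (fun t ht => if_pos (hp n t (not_lt.1 fun h' => ht (mem_range.2 h')) h1))]
      rw [sum_congr rfl fun t ht => if_neg (h2 t (mem_range.1 ht))]
      simp
    rw [e1, e2]
  · push Not at h
    have e1 : (⨅ (t : ℕ) (_ : p t), (t : ℝ≥0∞)) = ⊤ := by simp [h]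
    have e2 : ∑' t : ℕ, (if p t then (0 : ℝ≥0∞) else 1) = ⊤ := by
      simp only [h, if_false]
      exact ENNReal.tsum_const_eq_top_of_ne_zero one_ne_zero
    rw [e1, e2]

variable {V : Type} [Fintype V] [DecidableEq V] [MeasurableSpace V] [MeasurableSingletonClass V]

/-- the event that all vertices have been visited up to time `t` -/
def Cov (V : Type) (k t : ℕ) : Set (Fin k → ℕ → V) := {x | ∀ v : V, ∃ i, ∃ j ≤ t, x i j = v}

/-- restriction to the first `t + 1` times -/
def res (V : Type) (k t : ℕ) (x : Fin k → ℕ → V) : Fin k → Fin (t + 1) → V := fun i j => x i j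

lemma measurable_res (k t : ℕ) : Measurable (res V k t) := by
  unfold res
  refine measurable_pi_lambda _ fun i => measurable_pi_lambda _ fun j => ?_
  exact (measurable_pi_apply (j : ℕ)).comp (measurable_pi_apply i)

open Classical in
/-- bad finite paths -/
noncomputable def bad (V : Type) [Fintype V] (k t : ℕ) : Finset (Fin k → Fin (t + 1) → V) :=
  {ω | ∃ v : V, ∀ i j, ω i j ≠ v}

open Classical in
lemma compl_Cov (k t : ℕ) : (Cov V k t)ᶜ = res V k t ⁻¹' (bad V k t : Set _) := by
  ext x
  simp only [Cov, Set.mem_compl_iff, Set.mem_ofPred_eq, Set.mem_preimage, bad, coe_filter, mem_univ, true_and,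
    res]
  push Not
  refine exists_congr fun v => forall_congr' fun i => ?_
  constructor
  · intro h j; exact h j (Nat.lt_succ_iff.1 j.2)
  · intro h j hj; exact h ⟨j, Nat.lt_succ_iff.2 hj⟩

lemma measurableSet_Cov (k t : ℕ) : MeasurableSet (Cov V k t) := by
  have h : MeasurableSet (Cov V k t)ᶜ := by
    rw [compl_Cov]
    exact measurable_res k t (Set.toFinite _).measurableSet
  simpa using h.compl

/-- The extension of a finite path. -/
def ext (t : ℕ) (ω : Fin (t + 1) → V) (j : ℕ) : V := if h : j < t + 1 then ω ⟨j, h⟩ else ω 0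

lemma pi_singleton {P : Matrix V V ℝ} {u : V} {μ : Measure (ℕ → V)} (hμ : IsLaw P u μ) (hP : ∀ x y, 0 ≤ P x y)
    (k t : ℕ) (ω : Fin k → Fin (t + 1) → V) :
    (Measure.pi fun _ : Fin k => μ) (res V k t ⁻¹' {ω})
      = if ∀ i, ω i 0 = u then ENNReal.ofReal (∏ i, Pool.Agent.Speedup.pathW P t (ω i)) else 0 := by
  haveI := hμ.1
  have h1 : res V k t ⁻¹' {ω} = Set.pi Set.univ fun i => {x : ℕ → V | ∀ j ≤ t, x j = ext t (ω i) j} := by
    ext x
    simp only [Set.mem_preimage, Set.mem_singleton_iff, Set.mem_pi, Set.mem_univ, forall_true_left,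
      Set.mem_ofPred_eq]
    constructor
    · rintro rfl i j hj
      simp only [ext, dif_pos (Nat.lt_succ_iff.2 hj)]
      rfl
    · intro h
      funext i j
      have := h i j (Nat.lt_succ_iff.1 j.2)
      show x i j = ω i j
      rw [this]
      simp only [ext, dif_pos j.2]
  rw [h1, Measure.pi_pi]
  have h2 : ∀ i, μ {x : ℕ → V | ∀ j ≤ t, x j = ext t (ω i) j}
      = if ω i 0 = u then ENNReal.ofReal (Pool.Agent.Speedup.pathW P t (ω i)) else 0 := by
    intro i
    rw [hμ.2 t (ext t (ω i))]
    have e1 : ext t (ω i) 0 = ω i 0 := by simp [ext]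
    have e2 : ∏ j ∈ range t, P (ext t (ω i) j) (ext t (ω i) (j + 1)) = Pool.Agent.Speedup.pathW P t (ω i) := by
      rw [Pool.Agent.Speedup.pathW, ← Fin.prod_univ_eq_prod_range (fun j => P (ext t (ω i) j) (ext t (ω i) (j + 1)))]
      refine prod_congr rfl fun j _ => ?_
      have h3 : (j : ℕ) < t + 1 := by omega
      have h4 : (j : ℕ) + 1 < t + 1 := by omega
      simp only [ext, dif_pos h3, dif_pos h4]
      rfl
    rw [e1, e2]
  simp only [h2]
  by_cases h : ∀ i, ω i 0 = u
  · rw [if_pos h]
    simp only [h, if_true]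
    rw [ENNReal.ofReal_prod_of_nonneg]
    intro i _
    exact prod_nonneg fun _ _ => hP _ _
  · rw [if_neg h]
    push Not at h
    obtain ⟨i, hi⟩ := h
    exact prod_eq_zero (mem_univ i) (if_neg hi)

lemma measure_compl_Cov {P : Matrix V V ℝ} {u : V} {μ : Measure (ℕ → V)} (hμ : IsLaw P u μ)
    (hP : ∀ x y, 0 ≤ P x y) (k t : ℕ) :
    (Measure.pi fun _ : Fin k => μ) (Cov V k t)ᶜ = ENNReal.ofReal (Pool.Agent.Speedup.ncov P k t u) := by
  rw [compl_Cov, ← sum_measure_preimage_singleton _ fun ω _ => measurable_res k t (measurableSet_singleton ω)]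
  rw [sum_congr rfl fun ω _ => pi_singleton hμ hP k t ω]
  rw [Pool.Agent.Speedup.ncov, ENNReal.ofReal_sum_of_nonneg]
  · rw [bad, sum_filter]
    refine sum_congr rfl fun ω _ => ?_
    by_cases h : ∃ v : V, ∀ i j, ω i j ≠ v
    · rw [if_pos h]
      by_cases h' : ∀ i, ω i 0 = u
      · rw [if_pos h', if_pos ⟨h', h⟩]
      · rw [if_neg h', if_neg (fun h'' => h' h''.1)]; simp
    · rw [if_neg h, if_neg (fun h'' => h h''.2)]; simp
  · intro ω _
    split_ifs
    · exact prod_nonneg fun _ _ => prod_nonneg fun _ _ => hP _ _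
    · exact le_rfl

lemma expCover_eq {P : Matrix V V ℝ} {u : V} {μ : Measure (ℕ → V)} (hμ : IsLaw P u μ)
    (hP : ∀ x y, 0 ≤ P x y) (k : ℕ) :
    expCover k μ = ∑' t : ℕ, ENNReal.ofReal (Pool.Agent.Speedup.ncov P k t u) := by
  classical
  have h1 : ∀ x : Fin k → ℕ → V, coverTime x = ∑' t : ℕ, (Cov V k t)ᶜ.indicator (fun _ => (1 : ℝ≥0∞)) x := by
    intro x
    rw [coverTime, iInf_eq_tsum (fun t => ∀ v : V, ∃ i, ∃ j ≤ t, x i j = v)]
    · refine tsum_congr fun t => ?_
      by_cases h : x ∈ Cov V k t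
      · rw [Set.indicator_of_notMem (by simpa using h)]
        exact if_pos h
      · rw [Set.indicator_of_mem (by simpa using h)]
        exact if_neg h
    · intro s t hst h v
      obtain ⟨i, j, hj, hx⟩ := h v
      exact ⟨i, j, hj.trans hst, hx⟩
  have h2 : expCover k μ = ∫⁻ x, ∑' t : ℕ, (Cov V k t)ᶜ.indicator (fun _ => (1 : ℝ≥0∞)) x
      ∂(Measure.pi fun _ : Fin k => μ) := lintegral_congr h1
  rw [h2, lintegral_tsum fun t => (measurable_const.indicator (measurableSet_Cov k t).compl).aemeasurable]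
  refine tsum_congr fun t => ?_
  rw [lintegral_indicator_const (measurableSet_Cov k t).compl, one_mul, measure_compl_Cov hμ hP]

/-! ## Existence of the law of the chain (Ionescu-Tulcea) -/

/-- One step of the chain from `x`. -/
noncomputable def stepM (P : Matrix V V ℝ) (x : V) : Measure V := ∑ y, ENNReal.ofReal (P x y) • Measure.dirac y

lemma stepM_apply (P : Matrix V V ℝ) (x y : V) : stepM P x {y} = ENNReal.ofReal (P x y) := by
  simp only [stepM, Measure.coe_finsetSum, Finset.sum_apply, Measure.smul_apply, smul_eq_mul,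
    Measure.dirac_apply' _ (measurableSet_singleton y)]
  rw [Finset.sum_eq_single y]
  · simp
  · intro b _ hb
    rw [Set.indicator_of_notMem (by simpa using hb)]; simp
  · simp

lemma stepM_prob (P : Matrix V V ℝ) (hP : ∀ x y, 0 ≤ P x y) (hP1 : ∀ x, ∑ y, P x y = 1) (x : V) :
    IsProbabilityMeasure (stepM P x) := ⟨by
  simp only [stepM, Measure.coe_finsetSum, Finset.sum_apply, Measure.smul_apply, smul_eq_mul,
    measure_univ, mul_one]
  rw [← ENNReal.ofReal_sum_of_nonneg fun y _ => hP x y, hP1, ENNReal.ofReal_one]⟩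

/-- The transition kernels. -/
noncomputable def ker (P : Matrix V V ℝ) (n : ℕ) : Kernel (∀ _ : Iic n, V) V :=
  (Kernel.ofFunOfCountable (stepM P)).comap (fun h => h ⟨n, mem_Iic.2 le_rfl⟩) (measurable_pi_apply _)

lemma ker_apply (P : Matrix V V ℝ) (n : ℕ) (h : ∀ _ : Iic n, V) (y : V) :
    ker P n h {y} = ENNReal.ofReal (P (h ⟨n, mem_Iic.2 le_rfl⟩) y) := by
  rw [ker, Kernel.comap_apply]
  exact stepM_apply P _ y

lemma ker_markov (P : Matrix V V ℝ) (hP : ∀ x y, 0 ≤ P x y) (hP1 : ∀ x, ∑ y, P x y = 1) (n : ℕ) :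
    IsMarkovKernel (ker P n) := ⟨fun h => by
  rw [ker, Kernel.comap_apply]
  exact stepM_prob P hP hP1 _⟩

/-- The laws exist. -/
theorem exists_law (P : Matrix V V ℝ) (hP : ∀ x y, 0 ≤ P x y) (hP1 : ∀ x, ∑ y, P x y = 1) (u : V) :
    ∃ μ : Measure (ℕ → V), IsLaw P u μ := by
  have hM := ker_markov P hP hP1
  refine ⟨Kernel.traj (X := fun _ => V) (ker P) 0 (fun _ => u), ?_, ?_⟩
  · infer_instance
  intro t p
  induction t with
  | zero =>
    have h1 : {x : ℕ → V | ∀ j ≤ 0, x j = p j} = (Preorder.frestrictLe (π := fun _ => V) 0) ⁻¹'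
        {Preorder.frestrictLe (π := fun _ => V) 0 p} := by
      ext x
      simp only [Set.mem_ofPred_eq, Set.mem_preimage, Set.mem_singleton_iff]
      constructor
      · intro h; funext j
        exact h j (mem_Iic.1 j.2)
      · intro h j hj
        exact congrFun h ⟨j, mem_Iic.2 hj⟩
    rw [h1, ← Measure.map_apply (Preorder.measurable_frestrictLe 0) (measurableSet_singleton _),
      Kernel.traj_map_frestrictLe_apply, Kernel.partialTraj_self, Kernel.id_apply,
      Measure.dirac_apply' _ (measurableSet_singleton _)]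
    by_cases h : p 0 = u
    · rw [if_pos h, Set.indicator_of_mem]
      · simp
      · rw [Set.mem_singleton_iff]
        funext j
        have : (j : ℕ) = 0 := Nat.le_zero.1 (mem_Iic.1 j.2)
        show u = p j
        rw [this, h]
    · rw [if_neg h, Set.indicator_of_notMem]
      intro h'
      rw [Set.mem_singleton_iff] at h'
      exact h (congrFun h' ⟨0, mem_Iic.2 le_rfl⟩).symm
  | succ t ih =>
    have h1 : {x : ℕ → V | ∀ j ≤ t + 1, x j = p j}
        = (fun x : ℕ → V => (Preorder.frestrictLe (π := fun _ => V) t x, x (t + 1))) ⁻¹'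
        ({Preorder.frestrictLe (π := fun _ => V) t p} ×ˢ {p (t + 1)}) := by
      ext x
      simp only [Set.mem_ofPred_eq, Set.mem_preimage, Set.mem_singleton_iff, Set.mem_prod]
      constructor
      · intro h
        refine ⟨?_, h _ le_rfl⟩
        funext j
        exact h j ((mem_Iic.1 j.2).trans (Nat.le_succ t))
      · rintro ⟨h, h'⟩ j hj
        rcases Nat.lt_or_ge j (t + 1) with hj' | hj'
        · exact congrFun h ⟨j, mem_Iic.2 (Nat.lt_succ_iff.1 hj')⟩
        · have : j = t + 1 := le_antisymm hj hj'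
          rw [this, h']
    have h2 : {x : ℕ → V | ∀ j ≤ t, x j = p j} = (Preorder.frestrictLe (π := fun _ => V) t) ⁻¹'
        {Preorder.frestrictLe (π := fun _ => V) t p} := by
      ext x
      simp only [Set.mem_ofPred_eq, Set.mem_preimage, Set.mem_singleton_iff]
      constructor
      · intro h; funext j
        exact h j (mem_Iic.1 j.2)
      · intro h j hj
        exact congrFun h ⟨j, mem_Iic.2 hj⟩
    rw [h2, ← Measure.map_apply (Preorder.measurable_frestrictLe t) (measurableSet_singleton _),
      Kernel.traj_map_frestrictLe_apply] at ih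
    have hm : Measurable (fun x : ℕ → V => (Preorder.frestrictLe (π := fun _ => V) t x, x (t + 1))) :=
      (Preorder.measurable_frestrictLe t).prodMk (measurable_pi_apply _)
    rw [h1, ← Measure.map_apply hm ((measurableSet_singleton _).prod (measurableSet_singleton _)),
      ← Kernel.partialTraj_compProd_eq_map_traj (Nat.zero_le t), 
      Measure.compProd_apply_prod (measurableSet_singleton _) (measurableSet_singleton _)]
    rw [Measure.restrict_singleton, lintegral_smul_measure, lintegral_dirac, ker_apply, ih]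
    by_cases h : p 0 = u
    · rw [if_pos h, if_pos h, prod_range_succ, ENNReal.ofReal_mul (prod_nonneg fun _ _ => hP _ _)]
      rfl
    · rw [if_neg h, if_neg h]; simp

/-! ## The theorem -/

lemma bconst_le : 3 * Pool.Agent.Speedup.bconst ≤ 10 ^ 25 := by
  have h := Real.exp_one_lt_d9
  unfold Pool.Agent.Speedup.bconst
  nlinarith

/-- **Linear speed-up.**  For every irreducible reversible Markov chain `P` on a finite set `V` and every `k ≥ 1`,
the maximal expected cover time of one walker is at most `10 ^ 25 * k` times the maximal expected cover time of `k`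
independent walkers with a common starting point (`μ u` is the law of the chain started at `u`; it exists by
`exists_law`). -/
theorem result (V : Type) [Fintype V] [DecidableEq V] [MeasurableSpace V] [MeasurableSingletonClass V]
    (P : Matrix V V ℝ) (hP : ∀ x y, 0 ≤ P x y) (hP1 : ∀ x, ∑ y, P x y = 1)
    (hirr : ∀ x y, ∃ n : ℕ, 0 < (P ^ n) x y)
    (hrev : ∃ π : V → ℝ, (∀ x, 0 < π x) ∧ ∀ x y, π x * P x y = π y * P y x)
    (μ : V → Measure (ℕ → V)) (hμ : ∀ u, IsLaw P u (μ u)) (k : ℕ) (hk : 1 ≤ k) :
    ⨆ u, expCover 1 (μ u) ≤ 10 ^ 25 * k * ⨆ w, expCover k (μ w) := by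
  obtain ⟨π, hπ, hrev⟩ := hrev
  refine iSup_le fun u => ?_
  obtain ⟨w, hw⟩ := Pool.Agent.Speedup.main_ncov hP hP1 hirr hπ hrev hk u
  rw [expCover_eq (hμ u) hP]
  refine hw.trans ?_
  rw [← expCover_eq (hμ w) hP]
  refine mul_le_mul' ?_ (le_iSup (fun w => expCover k (μ w)) w)
  have h1 : ENNReal.ofReal (3 * Pool.Agent.Speedup.bconst * k) ≤ ENNReal.ofReal (10 ^ 25 * k) :=
    ENNReal.ofReal_le_ofReal (mul_le_mul_of_nonneg_right bconst_le (Nat.cast_nonneg k))
  refine h1.trans_eq ?_
  rw [ENNReal.ofReal_mul (by positivity), ENNReal.ofReal_natCast, ENNReal.ofReal_pow (by norm_num)]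
  norm_num

end Pool.Agent.Results.MP_12e6b8_pr.LinearSpeedup
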